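import Pool.Agent.U167.SA.Stm
import Pool.Agent.H985R6.LC.TTU

/-!
Project SA (helper167), package QP: the events `Q s` are local, increasing and have probability
bounded below.
-/

set_option autoImplicit false

namespace Pool.Agent.U408.SA

open H974 Finset Filter Topology Pool.Agent.U167.SA

theorem sub_tb {s m : ℕ} (hs : 0 < s) (h1 : 4 * s ≤ m) (h2 : m ≤ 20 * s) :
    TBE (m : ℤ) (3 * m) (-(3 * m)) (4 * m) ⊆ Rg s := by
  rintro ⟨x, y, _ | _⟩ h
  · simp only [mem_TBE_false] at h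
    simp only [Rg, boxE, Finset.mem_sdiff, mem_RE_false]
    push_cast
    omega
  · simp only [mem_TBE_true] at h
    simp only [Rg, boxE, Finset.mem_sdiff, mem_RE_true]
    push_cast
    omega

theorem sub_lr {s m : ℕ} (hs : 0 < s) (h1 : 4 * s ≤ m) (h2 : m ≤ 20 * s) :
    LRE (-(4 * m) : ℤ) (3 * m) (-(3 * m)) (-m) ⊆ Rg s := by
  rintro ⟨x, y, _ | _⟩ h
  · simp only [mem_LRE_false] at h
    simp only [Rg, boxE, Finset.mem_sdiff, mem_RE_false]
    push_cast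
    omega
  · simp only [mem_LRE_true] at h
    simp only [Rg, boxE, Finset.mem_sdiff, mem_RE_true]
    push_cast
    omega

theorem sub_rad {s : ℕ} (hs : 0 < s) :
    LRE (0 : ℤ) (80 * s + 1) (-(3 * s)) (-(2 * s)) ⊆ Rg s := by
  rintro ⟨x, y, _ | _⟩ h
  · simp only [mem_LRE_false] at h
    simp only [Rg, boxE, Finset.mem_sdiff, mem_RE_false]
    push_cast
    omega
  · simp only [mem_LRE_true] at h
    simp only [Rg, boxE, Finset.mem_sdiff, mem_RE_true]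
    push_cast
    omega

theorem bar_local {s m : ℕ} (hs : 0 < s) (h1 : 4 * s ≤ m) (h2 : m ≤ 20 * s) (F : Finset Edg) :
    Bar m F ↔ Bar m (F ∩ Rg s) :=
  and_congr (TBc_local (sub_tb hs h1 h2)) (LRc_local (sub_lr hs h1 h2))

theorem bar_mono {m : ℕ} {F G : Finset Edg} (h : F ⊆ G) (hF : Bar m F) : Bar m G :=
  ⟨hF.1.mono h, hF.2.mono h⟩

theorem q_local {s : ℕ} (hs : 0 < s) (F : Finset Edg) : Q s F ↔ Q s (F ∩ Rg s) :=
  and_congr (bar_local hs (le_refl _) (by omega) F)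
    (and_congr (bar_local hs (by omega) (le_refl _) F) (LRc_local (sub_rad hs)))

theorem q_mono {s : ℕ} {F G : Finset Edg} (h : F ⊆ G) (hF : Q s F) : Q s G :=
  ⟨bar_mono h hF.1, bar_mono h hF.2.1, hF.2.2.mono h⟩

theorem okh : Ok (fun _ : Edg => (1/2 : ℝ)) := okq (by norm_num) (by norm_num)

/-- The lower bound for one crossing. -/
theorem exists_low : ∃ d : ℝ, 0 < d ∧ d ≤ 1 ∧ ∀ w g : ℤ, 1 ≤ g → 0 < w → w ≤ 81 * g →
    d ≤ hh (1/2) w g :=
  ⟨(1/2 : ℝ) ^ (48 * (81 + 1)), pow_pos (by norm_num) _, pow_le_one₀ (by norm_num) (by norm_num),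
    fun w g h1 h2 h3 => H985LC.TUaux.hh_gen 81 h1 h2 (by push_cast; exact h3)⟩

theorem har {S : Finset Edg} {A B : Finset Edg → Prop} {a b : ℝ} (hb0 : 0 ≤ b)
    (hA : IncrE S A) (hB : IncrE S B) (ha : a ≤ Pr (fun _ => (1/2 : ℝ)) S A)
    (hb : b ≤ Pr (fun _ => (1/2 : ℝ)) S B) :
    a * b ≤ Pr (fun _ => (1/2 : ℝ)) S (fun F => A F ∧ B F) :=
  (mul_le_mul ha hb hb0 (Pr_nonneg okh S A)).trans (Pr_harris okh hA hB)

theorem bar_incr (S : Finset Edg) (m : ℕ) : IncrE S (Bar m) := fun _ _ h _ hF => bar_mono h hF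

theorem pr_bar {d : ℝ} (hd0 : 0 < d) (hd : ∀ w g : ℤ, 1 ≤ g → 0 < w → w ≤ 81 * g →
    d ≤ hh (1/2) w g) {S : Finset Edg} {m : ℕ} (hm : 0 < m)
    (h1 : TBE (m : ℤ) (3 * m) (-(3 * m)) (4 * m) ⊆ S)
    (h2 : LRE (-(4 * m) : ℤ) (3 * m) (-(3 * m)) (-m) ⊆ S) :
    d * d ≤ Pr (fun _ => (1/2 : ℝ)) S (Bar m) := by
  refine har hd0.le (TBc_incr S _ _ _ _) (LRc_incr S _ _ _ _) ?_ ?_
  · rw [pr_TBc (1/2) h1]
    exact hd _ _ (by omega) (by omega) (by omega)
  · rw [pr_LRc (1/2) h2]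
    exact hd _ _ (by omega) (by omega) (by omega)

theorem t_QP : QPStm := by
  obtain ⟨d, hd0, hd1, hd⟩ := exists_low
  refine ⟨d * d * (d * d * d), by positivity, ?_, fun s hs =>
    ⟨q_local hs, fun F G h hF => q_mono h hF, fun S hS => ?_⟩⟩
  · have h2 : d * d ≤ 1 := mul_le_one₀ hd1 hd0.le hd1
    exact mul_le_one₀ h2 (by positivity) (mul_le_one₀ h2 hd0.le hd1)
  · have hR : Rg s ⊆ S := Finset.sdiff_subset.trans hS
    refine har (by positivity) (bar_incr S _)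
      (fun F G h _ hF => ⟨bar_mono h hF.1, hF.2.mono h⟩)
      (pr_bar hd0 hd (by omega) ((sub_tb hs (le_refl _) (by omega)).trans hR)
        ((sub_lr hs (le_refl _) (by omega)).trans hR)) ?_
    refine har hd0.le (bar_incr S _) (LRc_incr S _ _ _ _)
      (pr_bar hd0 hd (by omega) ((sub_tb hs (by omega) (le_refl _)).trans hR)
        ((sub_lr hs (by omega) (le_refl _)).trans hR)) ?_
    rw [pr_LRc (1/2) ((sub_rad hs).trans hR)]
    exact hd _ _ (by omega) (by omega) (by omega)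

end Pool.Agent.U408.SA
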